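import Pool.Agent.Work.MP_223b32_es.Interface

/-!
Block CYC3 (MP_223b32, elliptic surfaces): the factors of `X ^ n - 1` modulo `2`, `n = 3 ^ k`.
-/

namespace Pool.Agent.Work.ES

open Polynomial Finset

namespace CYC3

/-- `2` is a primitive root modulo `3 ^ (k + 1)`. -/
lemma order_two (k : ℕ) (h : Nat.Coprime 2 (3 ^ (k + 1))) :
    orderOf (ZMod.unitOfCoprime 2 h) = 2 * 3 ^ k := by
  have key : ∀ m : ℕ, ZMod.unitOfCoprime 2 h ^ m = 1 ↔ 3 ^ (k + 1) ∣ 2 ^ m - 1 := by
    intro m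
    rw [← Units.val_inj, Units.val_pow_eq_pow_val, ZMod.coe_unitOfCoprime, Units.val_one]
    have h1 : (1 : ℕ) ≤ 2 ^ m := Nat.one_le_two_pow
    have e : (((2 : ℕ) : ZMod (3 ^ (k + 1))) ^ m = 1) ↔
        ((1 : ℕ) : ZMod (3 ^ (k + 1))) = ((2 ^ m : ℕ) : ZMod (3 ^ (k + 1))) := by
      rw [Nat.cast_pow, Nat.cast_one]
      exact eq_comm
    rw [e, ZMod.natCast_eq_natCast_iff]
    exact Nat.modEq_iff_dvd' h1
  apply orderOf_eq_of_pow_and_pow_div_prime (by positivity)
  · have := ZMod.pow_totient (ZMod.unitOfCoprime 2 h)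
    rwa [Nat.totient_prime_pow Nat.prime_three (by omega), Nat.add_sub_cancel, mul_comm] at this
  · intro p hp hpd
    have hcases : p = 2 ∨ p = 3 := by
      rcases (Nat.Prime.dvd_mul hp).1 hpd with h2 | h3
      · exact Or.inl ((Nat.prime_dvd_prime_iff_eq hp Nat.prime_two).1 h2)
      · exact Or.inr ((Nat.prime_dvd_prime_iff_eq hp Nat.prime_three).1 (hp.dvd_of_dvd_pow h3))
    rcases hcases with rfl | rfl
    · rw [Nat.mul_div_cancel_left _ (by norm_num), Ne, key]
      intro hd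
      have h3 : 3 ∣ 2 ^ 3 ^ k - 1 := (dvd_pow_self 3 (by omega)).trans hd
      have h1 : (1 : ℕ) ≤ 2 ^ 3 ^ k := Nat.one_le_two_pow
      have h4 : (1 : ℕ) ≡ 2 ^ 3 ^ k [MOD 3] := (Nat.modEq_iff_dvd' h1).2 h3
      have h5 : (2 : ℕ) ^ 3 ^ k ≡ 2 [MOD 3] := by
        have hodd : Odd (3 ^ k) := Odd.pow (by decide)
        obtain ⟨t, ht⟩ := hodd
        rw [ht, pow_succ, pow_mul]
        have : (2 ^ 2) ^ t ≡ 1 ^ t [MOD 3] := Nat.ModEq.pow t (by decide)
        simpa using this.mul_right 2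
      have := h4.trans h5
      revert this
      decide
    · rcases Nat.eq_zero_or_pos k with rfl | hk
      · norm_num at hpd
      · have hdiv : 2 * 3 ^ k / 3 = 2 * 3 ^ (k - 1) := by
          obtain ⟨l, rfl⟩ : ∃ l, k = l + 1 := ⟨k - 1, by omega⟩
          rw [Nat.add_sub_cancel, pow_succ, ← mul_assoc]
          exact Nat.mul_div_cancel _ (by norm_num)
        rw [hdiv, Ne, key, pow_mul]
        intro hd
        have : Fact (Nat.Prime 3) := ⟨Nat.prime_three⟩
        have hv := padicValNat.pow_sub_pow (p := 3) (hp1 := by decide) (x := 4) (y := 1)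
          (by norm_num) (by norm_num) (by norm_num) (n := 3 ^ (k - 1)) (by positivity)
        rw [one_pow] at hv
        have hne : 4 ^ 3 ^ (k - 1) - 1 ≠ 0 := by
          have : 1 < 4 ^ 3 ^ (k - 1) := Nat.one_lt_pow (by positivity) (by norm_num)
          omega
        have h2 := (padicValNat_dvd_iff_le hne).1 hd
        rw [show (2 : ℕ) ^ 2 = 4 by norm_num] at *
        rw [hv, padicValNat.prime_pow] at h2
        norm_num at h2
        omega

lemma irr (i : ℕ) : Irreducible (cyclotomic (3 ^ i) (ZMod 2)) := by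
  have : Fact (Nat.Prime 2) := ⟨Nat.prime_two⟩
  rcases Nat.eq_zero_or_pos i with rfl | hi
  · rw [pow_zero, cyclotomic_one]
    have := irreducible_X_sub_C (1 : ZMod 2)
    simpa using this
  · obtain ⟨k, rfl⟩ : ∃ k, i = k + 1 := ⟨i - 1, by omega⟩
    have hnd : ¬ 2 ∣ 3 ^ (k + 1) := by
      intro hd
      have := Nat.prime_two.dvd_of_dvd_pow hd
      omega
    apply ZMod.irreducible_of_dvd_cyclotomic_of_natDegree hnd dvd_rfl
    rw [natDegree_cyclotomic, order_two, Nat.totient_prime_pow Nat.prime_three (by omega),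
      Nat.add_sub_cancel, mul_comm]

lemma deg_lt {i j : ℕ} (h : i < j) :
    (cyclotomic (3 ^ i) (ZMod 2)).natDegree < (cyclotomic (3 ^ j) (ZMod 2)).natDegree := by
  rw [natDegree_cyclotomic, natDegree_cyclotomic,
    Nat.totient_prime_pow Nat.prime_three (n := j) (by omega)]
  rcases Nat.eq_zero_or_pos i with rfl | hi
  · have : 1 ≤ 3 ^ (j - 1) := Nat.one_le_pow _ _ (by norm_num)
    simp
    omega
  · rw [Nat.totient_prime_pow Nat.prime_three hi]
    have : 3 ^ (i - 1) < 3 ^ (j - 1) := Nat.pow_lt_pow_right (by norm_num) (by omega)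
    omega

lemma cop {i j : ℕ} (h : i < j) :
    IsCoprime (cyclotomic (3 ^ i) (ZMod 2)) (cyclotomic (3 ^ j) (ZMod 2)) := by
  have : Fact (Nat.Prime 2) := ⟨Nat.prime_two⟩
  rw [(irr i).coprime_iff_not_dvd]
  intro hd
  have ha : Associated (cyclotomic (3 ^ i) (ZMod 2)) (cyclotomic (3 ^ j) (ZMod 2)) :=
    (irr i).associated_of_dvd (irr j) hd
  have := deg_lt h
  rw [natDegree_eq_of_degree_eq (degree_eq_degree_of_associated ha)] at this
  exact lt_irrefl _ this

end CYC3

theorem stmt_CYC3 : Stmt_CYC3 := by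
  refine ⟨CYC3.irr, ?_, ?_, ?_⟩
  · intro i j hij
    rcases lt_or_gt_of_ne hij with h | h
    · exact CYC3.cop h
    · exact (CYC3.cop h).symm
  · intro k
    rw [← prod_cyclotomic_eq_X_pow_sub_one (by positivity : 0 < 3 ^ k),
      Nat.divisors_prime_pow Nat.prime_three, Finset.prod_map]
    rfl
  · intro i hi
    obtain ⟨k, rfl⟩ : ∃ k, i = k + 1 := ⟨i - 1, by omega⟩
    rw [cyclotomic_prime_pow_eq_geom_sum Nat.prime_three, Nat.add_sub_cancel]
    simp only [Finset.sum_range_succ, Finset.sum_range_zero]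
    rw [← pow_mul, ← pow_mul, ← pow_mul, mul_zero, mul_one, pow_zero, mul_comm (3 ^ k) 2]
    ring

end Pool.Agent.Work.ES
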