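import Pool.Agent.Work.MP_223b32_es.Interface

/-!
Block NUM (MP_223b32, elliptic surfaces): the numerical inequality.
-/

namespace Pool.Agent.Work.ES

open Finset

namespace NUM

/-- The tail from an index `j ≥ 2`. -/
lemma tail (d : ℕ) : ∀ j : ℕ, 2 ≤ j →
    ∑ i ∈ Icc j (j + d), (1 / 4 ^ (2 * 3 ^ (i - 2)) : ℝ) ≤ 1.004 / 4 ^ (2 * 3 ^ (j - 2)) := by
  induction d with
  | zero =>
    intro j hj
    rw [add_zero, Icc_self, sum_singleton]
    gcongr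
    norm_num
  | succ d ih =>
    intro j hj
    rw [← insert_Icc_add_one_left_eq_Icc (by omega : j ≤ j + (d + 1)),
      sum_insert (by simp)]
    have h1 := ih (j + 1) (by omega)
    rw [show j + 1 + d = j + (d + 1) by omega] at h1
    have h2 : (2 * 3 ^ (j + 1 - 2) : ℕ) = 2 * 3 ^ (j - 2) + 4 * 3 ^ (j - 2) := by
      rw [show j + 1 - 2 = (j - 2) + 1 by omega, pow_succ]
      ring
    rw [h2, pow_add, ← div_div] at h1
    have h3 : (256 : ℝ) ≤ 4 ^ (4 * 3 ^ (j - 2)) := by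
      have : 4 ≤ 4 * 3 ^ (j - 2) := by
        have := Nat.one_le_pow (j - 2) 3 (by norm_num)
        omega
      calc (256 : ℝ) = 4 ^ 4 := by norm_num
        _ ≤ 4 ^ (4 * 3 ^ (j - 2)) := pow_le_pow_right₀ (by norm_num) this
    have hx : (0 : ℝ) < 4 ^ (2 * 3 ^ (j - 2)) := by positivity
    have h4 : (1.004 : ℝ) / 4 ^ (2 * 3 ^ (j - 2)) / 4 ^ (4 * 3 ^ (j - 2)) ≤
        1.004 / 4 ^ (2 * 3 ^ (j - 2)) / 256 := by
      gcongr
    calc (1 : ℝ) / 4 ^ (2 * 3 ^ (j - 2)) +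
          ∑ i ∈ Icc (j + 1) (j + (d + 1)), (1 / 4 ^ (2 * 3 ^ (i - 2)) : ℝ)
        ≤ 1 / 4 ^ (2 * 3 ^ (j - 2)) + 1.004 / 4 ^ (2 * 3 ^ (j - 2)) / 256 := by
          linarith
      _ = (1 + 1.004 / 256) / 4 ^ (2 * 3 ^ (j - 2)) := by
          field_simp
      _ ≤ 1.004 / 4 ^ (2 * 3 ^ (j - 2)) := by
          gcongr
          norm_num

/-- The exponents. -/
def te (i : ℕ) : ℕ := if i = 1 then 1 else 2 * 3 ^ (i - 2)

/-- The main terms. -/
lemma main {k j : ℕ} (hj : 1 ≤ j) (hjk : j ≤ k) :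
    ∑ i ∈ Icc j k, (1 / 4 ^ te i : ℝ) ≤ 0.6255 * (1 / 2) ^ 3 ^ (j - 1) := by
  have big : ∀ j : ℕ, 2 ≤ j → j ≤ k →
      ∑ i ∈ Icc j k, (1 / 4 ^ te i : ℝ) ≤ 1.004 / 4 ^ (2 * 3 ^ (j - 2)) := by
    intro j hj hjk
    have h := tail (k - j) j hj
    rw [show j + (k - j) = k by omega] at h
    refine le_trans (le_of_eq (sum_congr rfl ?_)) h
    intro i hi
    rw [mem_Icc] at hi
    rw [te, if_neg (by omega)]
  rcases Nat.lt_or_ge j 2 with h | h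
  · obtain rfl : j = 1 := by omega
    rw [← insert_Icc_add_one_left_eq_Icc hjk, sum_insert (by simp)]
    have h1 : ∑ i ∈ Icc (1 + 1) k, (1 / 4 ^ te i : ℝ) ≤ 1.004 / 16 := by
      rcases Nat.lt_or_ge k 2 with h2 | h2
      · rw [Icc_eq_empty (by omega), sum_empty]
        norm_num
      · refine le_trans (big 2 le_rfl h2) ?_
        norm_num
    have h0 : te 1 = 1 := by simp [te]
    rw [h0]
    norm_num at h1 ⊢
    linarith
  · refine le_trans (big j h hjk) ?_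
    have h2 : (3 ^ (j - 1) : ℕ) = 3 * 3 ^ (j - 2) := by
      rw [show j - 1 = (j - 2) + 1 by omega, pow_succ]
      ring
    rw [h2]
    set b := 3 ^ (j - 2) with hb
    have hb1 : 1 ≤ b := Nat.one_le_pow _ _ (by norm_num)
    have e1 : (4 : ℝ) ^ (2 * b) = 2 ^ (3 * b) * 2 ^ b := by
      rw [show (4 : ℝ) = 2 ^ 2 by norm_num, ← pow_mul, ← pow_add]
      congr 1
      ring
    have e2 : ((1 : ℝ) / 2) ^ (3 * b) = 1 / 2 ^ (3 * b) := by
      rw [one_div_pow]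
    have h5 : (2 : ℝ) ≤ 2 ^ b := by
      calc (2 : ℝ) = 2 ^ 1 := by norm_num
        _ ≤ 2 ^ b := pow_le_pow_right₀ (by norm_num) hb1
    rw [e1, e2, ← div_div, mul_one_div, div_right_comm]
    gcongr
    rw [div_le_iff₀ (by positivity)]
    linarith

/-- The number of terms. -/
lemma count {k j : ℕ} (hj : 1 ≤ j) (hjk : j ≤ k) :
    (k + 1 - j) * 2 ^ 3 ^ (j - 1) ≤ 2 ^ 3 ^ (k - 1) := by
  obtain ⟨d, rfl⟩ : ∃ d, k = j + d := ⟨k - j, by omega⟩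
  have h1 : j + d + 1 - j = d + 1 := by omega
  rw [h1]
  have h2 : d + 1 ≤ 2 ^ d := Nat.lt_two_pow_self
  have h3 : d + 3 ^ (j - 1) ≤ 3 ^ (j + d - 1) := by
    clear h1 h2 hjk
    induction d with
    | zero => simp
    | succ d ih =>
      have : 3 ^ (j + (d + 1) - 1) = 3 * 3 ^ (j + d - 1) := by
        rw [show j + (d + 1) - 1 = (j + d - 1) + 1 by omega, pow_succ]
        ring
      rw [this]
      have := Nat.one_le_pow (j + d - 1) 3 (by norm_num)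
      omega
  calc (d + 1) * 2 ^ 3 ^ (j - 1) ≤ 2 ^ d * 2 ^ 3 ^ (j - 1) := Nat.mul_le_mul_right _ h2
    _ = 2 ^ (d + 3 ^ (j - 1)) := by rw [pow_add]
    _ ≤ 2 ^ 3 ^ (j + d - 1) := Nat.pow_le_pow_right (by norm_num) h3

end NUM

theorem stmt_NUM : Stmt_NUM := by
  intro q k j hq hk hj hjk
  set s : ℝ := √q with hs
  have hq0 : (0 : ℝ) ≤ q := by linarith
  have hsq : s ^ 2 = q := Real.sq_sqrt hq0
  have hs0 : 0 ≤ s := Real.sqrt_nonneg q
  have hs1 : (2.64 : ℝ) ≤ s := by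
    rw [hs]
    apply Real.le_sqrt_of_sq_le
    norm_num
    linarith
  set m : ℕ := 3 ^ (k - 1) with hm
  have hn : (3 ^ k : ℕ) = 3 * m := by
    rw [hm, ← pow_succ', Nat.sub_add_cancel (by omega)]
  have hm27 : 27 ≤ m := by
    calc 27 = 3 ^ 3 := by norm_num
      _ ≤ 3 ^ (k - 1) := Nat.pow_le_pow_right (by norm_num) (by omega)
  have hQ : q ^ 3 ^ k = s ^ (6 * m) := by
    rw [hn, ← hsq, ← pow_mul]
    congr 1
    ring
  have hR : √(q ^ 3 ^ k) = s ^ (3 * m) := by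
    rw [hQ, show 6 * m = 2 * (3 * m) by ring, mul_comm 2, pow_mul]
    exact Real.sqrt_sq (by positivity)
  have hP : q ^ m = s ^ (2 * m) := by
    rw [← hsq, ← pow_mul]
  rw [hR, hQ, hP]
  have e1 : ∀ i : ℕ, (2 / 3 * s ^ (6 * m) / 4 ^ (if i = 1 then 1 else 2 * 3 ^ (i - 2)) +
      28 * s ^ (2 * m) * s ^ (3 * m) : ℝ) =
      2 / 3 * s ^ (6 * m) * (1 / 4 ^ NUM.te i) + 28 * s ^ (5 * m) := by
    intro i
    rw [NUM.te, mul_assoc 28, ← pow_add, show 2 * m + 3 * m = 5 * m by ring]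
    ring
  rw [sum_congr rfl (fun i _ => e1 i), sum_add_distrib, ← mul_sum, sum_const, Nat.card_Icc,
    nsmul_eq_mul]
  set x : ℝ := s ^ m with hx
  have hx6 : s ^ (6 * m) = x ^ 6 := by rw [hx, ← pow_mul, mul_comm]
  have hx5 : s ^ (5 * m) = x ^ 5 := by rw [hx, ← pow_mul, mul_comm]
  rw [hx6, hx5]
  set B : ℝ := (2 : ℝ) ^ 3 ^ (j - 1) with hB
  have hB0 : 0 < B := by positivity
  have hhalf : ((1 : ℝ) / 2) ^ 3 ^ (j - 1) = 1 / B := by rw [one_div_pow]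
  have hmain := NUM.main hj hjk
  rw [hhalf] at hmain ⊢
  have hcount : ((k + 1 - j : ℕ) : ℝ) * B ≤ 2 ^ m := by
    have h1 := NUM.count hj hjk
    rw [← hm] at h1
    have h2 : (((k + 1 - j) * 2 ^ 3 ^ (j - 1) : ℕ) : ℝ) ≤ ((2 ^ m : ℕ) : ℝ) :=
      Nat.cast_le.mpr h1
    rw [Nat.cast_mul, Nat.cast_pow, Nat.cast_pow, Nat.cast_ofNat] at h2
    exact h2
  have hx2 : 1750 * (2 : ℝ) ^ m ≤ x := by
    have h1 : (1.32 : ℝ) ^ m * 2 ^ m ≤ x := by
      rw [hx, ← mul_pow]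
      apply pow_le_pow_left₀ (by norm_num)
      linarith
    have h2 : (1750 : ℝ) ≤ 1.32 ^ m := by
      calc (1750 : ℝ) ≤ 1.32 ^ 27 := by norm_num
        _ ≤ 1.32 ^ m := pow_le_pow_right₀ (by norm_num) hm27
    calc 1750 * (2 : ℝ) ^ m ≤ 1.32 ^ m * 2 ^ m := by gcongr
      _ ≤ x := h1
  have h2m : (1 : ℝ) ≤ 2 ^ m := one_le_pow₀ (by norm_num)
  have hx0 : 1750 ≤ x := by nlinarith
  -- error terms
  have herr : ((k + 1 - j : ℕ) : ℝ) * (28 * x ^ 5) ≤ 0.016 * (x ^ 6 / B) := by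
    rw [← mul_div_assoc, le_div_iff₀ hB0]
    calc ((k + 1 - j : ℕ) : ℝ) * (28 * x ^ 5) * B
        = (((k + 1 - j : ℕ) : ℝ) * B) * (28 * x ^ 5) := by ring
      _ ≤ 2 ^ m * (28 * x ^ 5) := by gcongr
      _ = (28 * 2 ^ m) * x ^ 5 := by ring
      _ ≤ (0.016 * x) * x ^ 5 :=
          mul_le_mul_of_nonneg_right (by linarith) (by positivity)
      _ = 0.016 * x ^ 6 := by ring
  have hmain2 : 2 / 3 * x ^ 6 * ∑ i ∈ Icc j k, (1 / 4 ^ NUM.te i : ℝ) ≤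
      0.417 * (x ^ 6 / B) := by
    calc 2 / 3 * x ^ 6 * ∑ i ∈ Icc j k, (1 / 4 ^ NUM.te i : ℝ)
        ≤ 2 / 3 * x ^ 6 * (0.6255 * (1 / B)) := by gcongr
      _ = 0.417 * (x ^ 6 / B) := by ring
  have hlast : (0.433 : ℝ) * (x ^ 6 / B) ≤ 2 / 3 * (1 / B) * (2 / 3 * (x ^ 6 - 1)) := by
    have h6 : (1750 : ℝ) ≤ x ^ 6 := by
      calc (1750 : ℝ) ≤ x := hx0
        _ = x ^ 1 := (pow_one x).symm
        _ ≤ x ^ 6 := pow_le_pow_right₀ (by linarith) (by norm_num)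
    have e : 2 / 3 * (1 / B) * (2 / 3 * (x ^ 6 - 1)) - 0.433 * (x ^ 6 / B) =
        ((4 / 9 - 0.433) * x ^ 6 - 4 / 9) / B := by
      ring
    have : 0 ≤ ((4 / 9 - 0.433) * x ^ 6 - 4 / 9) / B := by
      apply div_nonneg _ hB0.le
      norm_num
      linarith
    linarith
  linarith

end Pool.Agent.Work.ES
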